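import Pool.Agent.H47.VT.Targets6

/-!
# Sums of divisor functions
-/

set_option autoImplicit false

open Finset

namespace Pool.Agent.H34.VT

open Pool.Agent.H47.VT

private lemma tk_nonneg (k n : ℕ) : 0 ≤ tk k n := by
  unfold tk
  exact Nat.cast_nonneg _

private lemma tk_zero (n : ℕ) : tk 0 n = if n = 1 then 1 else 0 := by
  unfold tk
  rw [pow_zero, ArithmeticFunction.one_apply]
  split_ifs <;> simp

private lemma tk_succ (k n : ℕ) : tk (k + 1) n = ∑ x ∈ n.divisorsAntidiagonal, tk k x.1 := by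
  unfold tk
  rw [pow_succ, ArithmeticFunction.mul_apply, Nat.cast_sum]
  refine Finset.sum_congr rfl fun x hx => ?_
  have hx2 : x.2 ≠ 0 := by
    intro h
    rw [Nat.mem_divisorsAntidiagonal, h, mul_zero] at hx
    exact hx.2 hx.1.symm
  rw [ArithmeticFunction.zeta_apply, if_neg hx2, mul_one]

private lemma harm (N : ℕ) : ∑ m ∈ Icc 1 N, (1 : ℝ) / m ≤ 1 + Real.log N := by
  have h := harmonic_le_one_add_log N
  rw [harmonic_eq_sum_Icc] at h
  push_cast at h
  simpa only [one_div] using h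

private lemma conv_le (N : ℕ) (f : ℕ × ℕ → ℝ) (hf : ∀ x, 0 ≤ f x) :
    ∑ n ∈ Icc 1 N, ∑ x ∈ n.divisorsAntidiagonal, f x ≤ ∑ x ∈ Icc 1 N ×ˢ Icc 1 N, f x := by
  have h1 : ∀ n ∈ Icc 1 N, ∑ x ∈ n.divisorsAntidiagonal, f x =
      ∑ x ∈ (Icc 1 N ×ˢ Icc 1 N).filter (fun x => x.1 * x.2 = n), f x := by
    intro n hn
    rw [mem_Icc] at hn
    refine Finset.sum_congr ?_ fun _ _ => rfl
    ext x
    rw [Nat.mem_divisorsAntidiagonal, mem_filter, mem_product, mem_Icc, mem_Icc]
    constructor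
    · rintro ⟨hx, hn0⟩
      have h1 : 0 < x.1 := Nat.pos_of_ne_zero fun h => by rw [h, zero_mul] at hx; omega
      have h2 : 0 < x.2 := Nat.pos_of_ne_zero fun h => by rw [h, mul_zero] at hx; omega
      have h3 : x.1 ≤ x.1 * x.2 := Nat.le_mul_of_pos_right _ h2
      have h4 : x.2 ≤ x.1 * x.2 := Nat.le_mul_of_pos_left _ h1
      exact ⟨⟨⟨h1, by omega⟩, ⟨h2, by omega⟩⟩, hx⟩
    · rintro ⟨-, hx⟩
      exact ⟨hx, by omega⟩
  rw [Finset.sum_congr rfl h1]
  exact Finset.sum_fiberwise_le_sum_of_sum_fiber_nonneg fun n _ =>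
    Finset.sum_nonneg fun x _ => hf x

private lemma step (k N : ℕ) : ∑ n ∈ Icc 1 N, tk (k + 1) n / n ≤
    (∑ n ∈ Icc 1 N, tk k n / n) * ∑ m ∈ Icc 1 N, (1 : ℝ) / m := by
  have h1 : ∀ n ∈ Icc 1 N, tk (k + 1) n / n =
      ∑ x ∈ n.divisorsAntidiagonal, tk k x.1 / x.1 * (1 / x.2) := by
    intro n hn
    rw [mem_Icc] at hn
    rw [tk_succ, Finset.sum_div]
    refine Finset.sum_congr rfl fun x hx => ?_
    rw [Nat.mem_divisorsAntidiagonal] at hx
    rw [← hx.1]
    push_cast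
    rw [div_mul_div_comm, mul_one]
  rw [Finset.sum_congr rfl h1, Finset.sum_mul_sum, ← Finset.sum_product']
  exact conv_le N (fun x => tk k x.1 / x.1 * (1 / x.2)) fun x =>
    mul_nonneg (div_nonneg (tk_nonneg _ _) (Nat.cast_nonneg _)) (by positivity)

theorem pf_DVS : T_DVS := by
  intro k N hN
  have hlog : 0 ≤ Real.log N := Real.log_natCast_nonneg N
  have h1 : ∑ n ∈ Icc 1 N, tk k n / n ≤ (1 + Real.log N) ^ k := by
    induction k with
    | zero =>
      rw [pow_zero]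
      have h2 : ∑ n ∈ Icc 1 N, tk 0 n / n = ∑ n ∈ Icc 1 N, if n = 1 then (1 : ℝ) else 0 := by
        refine Finset.sum_congr rfl fun n _ => ?_
        rw [tk_zero]
        split_ifs with h
        · rw [h, Nat.cast_one, div_one]
        · rw [zero_div]
      rw [h2, Finset.sum_ite_eq' (Icc 1 N) 1 (fun _ => (1 : ℝ))]
      split_ifs <;> norm_num
    | succ k ih =>
      refine (step k N).trans ?_
      rw [pow_succ]
      refine mul_le_mul ih (harm N) (Finset.sum_nonneg fun m _ => by positivity) (by positivity)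
  refine ⟨h1, ?_⟩
  calc ∑ n ∈ Icc 1 N, tk k n ≤ ∑ n ∈ Icc 1 N, N * (tk k n / n) := by
        refine Finset.sum_le_sum fun n hn => ?_
        rw [mem_Icc] at hn
        have hn0 : (0 : ℝ) < n := by exact_mod_cast hn.1
        have hnN : (n : ℝ) ≤ N := by exact_mod_cast hn.2
        have e : tk k n = n * (tk k n / n) := by field_simp
        calc tk k n = n * (tk k n / n) := e
          _ ≤ N * (tk k n / n) :=
              mul_le_mul_of_nonneg_right hnN (div_nonneg (tk_nonneg _ _) hn0.le)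
    _ = N * ∑ n ∈ Icc 1 N, tk k n / n := by rw [Finset.mul_sum]
    _ ≤ N * (1 + Real.log N) ^ k := mul_le_mul_of_nonneg_left h1 (Nat.cast_nonneg _)

end Pool.Agent.H34.VT
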